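import Mathlib
import Pool.Agent.N345.Sym.AxGroup

set_option autoImplicit false

/-!
# Fixed `lam ≥ 2`, large `k`: axial automorphisms are central, and there are few of them

Let `H` be a group of automorphisms of a symmetric `2-(v, k, lam)` design, `lam ≥ 2`,
`k > 10 lam ^ 5`, which fix all points of a block `b`. Every `σ ≠ 1` in `H` has exactly one centre
(a point `c` such that all blocks through `c` are fixed), its fixed points are the points of `b` and
`c`, its fixed blocks are `b` and the blocks through `c`. The order of `H` is at most `lam - 1`,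
and its prime divisors divide `lam - 1`; if all elements of `H` have the same centre `c`, then
the order of `H` divides `lam - 1`, and `k - 1` (if `c` is on `b`) or `k - 2` (if not).
-/

namespace Pool.Agent.Results.MP_c38931_co.AxialAutomorphisms

/-- The blocks `B i` (`i : Fin v`) form a symmetric `2-(v, k, lam)` design on the points `Fin v`
with `2 ≤ k < v`. -/
structure IsSymmetricDesign (v k lam : ℕ) (B : Fin v → Finset (Fin v)) : Prop where
  two_le : 2 ≤ k
  lt : k < v
  size : ∀ i, (B i).card = k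
  pair : ∀ x y : Fin v, x ≠ y →
    (Finset.univ.filter (fun i => x ∈ B i ∧ y ∈ B i)).card = lam

/-- The permutation `σ` of the points maps every block to a block. -/
def IsAutomorphism {v : ℕ} (B : Fin v → Finset (Fin v)) (σ : Equiv.Perm (Fin v)) : Prop :=
  ∀ i, ∃ j, (B i).image σ = B j

/-- `c` is a centre of `σ`: every block through `c` is mapped to itself. -/
def IsCentre {v : ℕ} (B : Fin v → Finset (Fin v)) (σ : Equiv.Perm (Fin v)) (c : Fin v) : Prop :=
  ∀ i, c ∈ B i → (B i).image σ = B i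

/-- Let `lam ≥ 2` and `k > 10 lam ^ 5`, and let `H` be a group of automorphisms of a symmetric
`2-(v, k, lam)` design which fix all points of a block `b`. (1) Every `σ ≠ 1` in `H` has exactly one
centre. (2) If `c` is a centre of `σ ≠ 1` in `H`, then the fixed points of `σ` are the points of `b`
and `c`, and the fixed blocks are `b` and the blocks through `c`. (3) The order of `H` is at
most `lam - 1` and all its prime divisors divide `lam - 1`; in particular `H` is trivial for
`lam = 2`. (4) If `c` is a centre of all elements of `H`, then the order of `H` divides `lam - 1`;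
it divides `k - 1` if `c` is on `b`, and `k - 2` if not. -/
theorem result (v k lam : ℕ) (B : Fin v → Finset (Fin v)) (hB : IsSymmetricDesign v k lam B)
    (hlam : 2 ≤ lam) (hk : 10 * lam ^ 5 < k) (b : Fin v) (H : Subgroup (Equiv.Perm (Fin v)))
    (hH : ∀ σ ∈ H, IsAutomorphism B σ ∧ ∀ x ∈ B b, σ x = x) :
    (∀ σ ∈ H, σ ≠ 1 → ∃! c, IsCentre B σ c) ∧
    (∀ σ ∈ H, σ ≠ 1 → ∀ c, IsCentre B σ c → (∀ x, σ x = x ↔ x ∈ B b ∨ x = c) ∧
      ∀ i, (B i).image σ = B i ↔ i = b ∨ c ∈ B i) ∧
    (Nat.card H ≤ lam - 1 ∧ ∀ p : ℕ, p.Prime → p ∣ Nat.card H → p ∣ lam - 1) ∧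
    ∀ c, (∀ σ ∈ H, IsCentre B σ c) → Nat.card H ∣ lam - 1 ∧ (c ∈ B b → Nat.card H ∣ k - 1) ∧
      (c ∉ B b → Nat.card H ∣ k - 2) := by
  have hd : Pool.Agent.N345.Sym.Des v k lam B := ⟨hB.two_le, hB.lt, hB.size, hB.pair⟩
  have hl1 : 1 ≤ lam := by omega
  have hlam5 : lam ≤ lam ^ 5 := Nat.le_self_pow (by norm_num) lam
  have hk5 : 2 * lam ^ 5 + lam < k := by omega
  have hk2 : lam * (lam + 2) < k := by
    have h1 : lam ^ 2 ≤ lam ^ 5 := Nat.pow_le_pow_right hl1 (by norm_num)
    nlinarith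
  have hcen : ∀ (σ : Equiv.Perm (Fin v)) (c : Fin v),
      IsCentre B σ c ↔ Pool.Agent.N345.Sym.Cen B σ c := by
    intro σ c
    unfold IsCentre Pool.Agent.N345.Sym.Cen
    simp only [Pool.Agent.N345.Sym.mem_fixB]
  have hax : ∀ σ ∈ H, σ ≠ 1 → Pool.Agent.N345.Sym.Ax B b σ := fun σ hσ hne =>
    ⟨(hH σ hσ).1, hne, (hH σ hσ).2⟩
  refine ⟨?_, ?_, ⟨?_, ?_⟩, ?_⟩
  · intro σ hσ hne
    obtain ⟨c, hc, -, -⟩ := Pool.Agent.N345.Sym.axial hd hl1 hlam hk5 (hax σ hσ hne)
    refine ⟨c, (hcen σ c).2 hc, fun c' hc' => ?_⟩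
    exact Pool.Agent.N345.Sym.cen_unique hd hl1 (hax σ hσ hne) hk2 ((hcen σ c').1 hc') hc
  · intro σ hσ hne c hc
    obtain ⟨c', hc', h1, h2⟩ := Pool.Agent.N345.Sym.axial hd hl1 hlam hk5 (hax σ hσ hne)
    have h3 := Pool.Agent.N345.Sym.cen_unique hd hl1 (hax σ hσ hne) hk2 ((hcen σ c).1 hc) hc'
    subst h3
    refine ⟨h1, fun i => ?_⟩
    rw [← h2 i, Pool.Agent.N345.Sym.mem_fixB]
  · exact Pool.Agent.N345.Sym.group_le hd hl1 hlam hk H hH
  · intro p hp hpH
    exact Pool.Agent.N345.Sym.prime_dvd hd hl1 hlam hk5 H hH hp hpH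
  · intro c hc
    exact Pool.Agent.N345.Sym.group_dvd hd hl1 hlam hk5 H hH fun σ hσ => (hcen σ c).1 (hc σ hσ)

end Pool.Agent.Results.MP_c38931_co.AxialAutomorphisms
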