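import Pool.Agent.N606.ST.Sym3

/-!
# MP_c38931_co (Hall's finiteness conjecture for symmetric designs): a distance gap

For `lam ≥ 1` and `k ≥ 9 lam ^ 3`, two symmetric `(v, k, lam)`-designs on the same points either
arise from each other by a permutation that moves fewer than `√(k / lam) + lam + 1` points, or
differ in at least `1 + (k / lam) ^ (3/2) - k / lam` blocks. For `lam = 1` and `k = q ^ 2 + 1`
this is the right order.
-/

set_option autoImplicit false

namespace Pool.Agent.Results.MP_c38931_co.DistanceGap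

open Finset Equiv Pool.Agent.N606.ST.Sym

/-- The distance gap for symmetric designs; the same for permutations that map most blocks to
blocks; and its sharpness for `lam = 1`. -/
theorem result :
    (∀ (V : Type) [Fintype V] [DecidableEq V] (k lam : ℕ) (B B' : Finset (Finset V)),
      SymDesign k lam B → SymDesign k lam B' → 1 ≤ lam → 9 * lam ^ 3 ≤ k →
      ((B' \ B).card : ℝ) < 1 + Real.sqrt (k / lam) * (k / lam - Real.sqrt (k / lam)) →
      ∃ g : Perm V, ((univ.filter fun x => g x ≠ x).card : ℝ) < Real.sqrt (k / lam) + lam + 1 ∧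
        B' = B.image fun b => b.image g) ∧
    (∀ (V : Type) [Fintype V] [DecidableEq V] (k lam : ℕ) (B : Finset (Finset V)),
      SymDesign k lam B → 1 ≤ lam → 9 * lam ^ 3 ≤ k → ∀ g : Perm V,
      ((B.filter fun b => b.image g ∉ B).card : ℝ) <
        1 + Real.sqrt (k / lam) * (k / lam - Real.sqrt (k / lam)) →
      ∃ s : Perm V, (∀ b ∈ B, b.image s ∈ B) ∧
        ((univ.filter fun x => g x ≠ s x).card : ℝ) < Real.sqrt (k / lam) + lam + 1) ∧
    (∀ q : ℕ, IsPrimePow q →
      ∃ (V : Type) (_ : Fintype V) (_ : DecidableEq V) (B B' : Finset (Finset V)),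
        SymDesign (q ^ 2 + 1) 1 B ∧ SymDesign (q ^ 2 + 1) 1 B' ∧
        (B' \ B).card = q ^ 3 + q ^ 2 ∧
        ∀ g : Perm V, (B' = B.image fun b => b.image g) →
          q ^ 2 - q ≤ (univ.filter fun x => g x ≠ x).card) :=
  ⟨fun _ _ _ _ _ _ _ h h' hl hk hlt => gap h h' hl hk hlt,
    fun _ _ _ _ _ _ h hl hk g hlt => near h hl hk g hlt,
    fun _ hq => exists_close hq⟩

end Pool.Agent.Results.MP_c38931_co.DistanceGap
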