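import Mathlib
import Pool.Agent.N345.Sym.Many

set_option autoImplicit false

/-!
# Fixed `lam`: more than `lam` automorphisms have at most `k / lam + O(√k)` common fixed points

Let `H` be a group of more than `lam` automorphisms of a symmetric `2-(v, k, lam)` design. Then the
number of common fixed points of `H` is at most `k / lam + C √k`, where `C` depends on `lam` only.
Hence, for `c > 1 / lam`, only finitely many symmetric designs with the given `lam` have a group of
more than `lam` automorphisms with at least `c k` common fixed points.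

Proof. A block with two common fixed points has an orbit of length at most `lam`, so it is fixed by
many elements of `H`; an automorphism other than the identity fixes at most `2 k` blocks. So at most
`2 lam ^ 2 k` blocks have two common fixed points, all others have at most one. Count flags.
-/

namespace Pool.Agent.Results.MP_c38931_co.ManyFixedPoints

/-- The blocks `B i` (`i : Fin v`) form a symmetric `2-(v, k, lam)` design on the points `Fin v`
with `2 ≤ k < v`. -/
structure IsSymmetricDesign (v k lam : ℕ) (B : Fin v → Finset (Fin v)) : Prop where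
  two_le : 2 ≤ k
  lt : k < v
  size : ∀ i, (B i).card = k
  pair : ∀ x y : Fin v, x ≠ y →
    (Finset.univ.filter (fun i => x ∈ B i ∧ y ∈ B i)).card = lam

/-- The permutation `σ` of the points maps every block to a block. -/
def IsAutomorphism {v : ℕ} (B : Fin v → Finset (Fin v)) (σ : Equiv.Perm (Fin v)) : Prop :=
  ∀ i, ∃ j, (B i).image σ = B j

/-- The points fixed by all permutations in `H`. -/
def commonFixedPoints {v : ℕ} (H : Subgroup (Equiv.Perm (Fin v))) : Set (Fin v) :=
  {x | ∀ σ ∈ H, σ x = x}

/-- (1) Let `lam ≥ 1`. A group `H` of more than `lam` automorphisms of a symmetric `2-(v, k, lam)`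
design has at most `k / lam + 2 lam √(2 lam + 1) √k` common fixed points. (2) For every
`lam ≥ 1` and every real `c > 1 / lam`, only finitely many pairs `(v, k)` are the parameters of a
symmetric `2-(v, k, lam)` design with a group of more than `lam` automorphisms that has at least
`c k` common fixed points. -/
theorem result :
    (∀ (v k lam : ℕ) (B : Fin v → Finset (Fin v)) (H : Subgroup (Equiv.Perm (Fin v))), 1 ≤ lam →
      IsSymmetricDesign v k lam B → (∀ σ ∈ H, IsAutomorphism B σ) → lam < Nat.card H →
        (lam : ℝ) * (commonFixedPoints H).ncard ≤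
          k + 2 * lam ^ 2 * Real.sqrt (2 * lam + 1) * Real.sqrt k) ∧
    (∀ (lam : ℕ) (c : ℝ), 1 ≤ lam → 1 < lam * c →
      {p : ℕ × ℕ | ∃ (B : Fin p.1 → Finset (Fin p.1)) (H : Subgroup (Equiv.Perm (Fin p.1))),
        IsSymmetricDesign p.1 p.2 lam B ∧ (∀ σ ∈ H, IsAutomorphism B σ) ∧ lam < Nat.card H ∧
          c * p.2 ≤ (commonFixedPoints H).ncard}.Finite) := by
  have main : ∀ (v k lam : ℕ) (B : Fin v → Finset (Fin v)) (H : Subgroup (Equiv.Perm (Fin v))),
      1 ≤ lam → IsSymmetricDesign v k lam B → (∀ σ ∈ H, IsAutomorphism B σ) → lam < Nat.card H →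
        (lam : ℝ) * (commonFixedPoints H).ncard ≤
          k + 2 * lam ^ 2 * Real.sqrt (2 * lam + 1) * Real.sqrt k := by
    intro v k lam B H hlam hB hH hcard
    have hd : Pool.Agent.N345.Sym.Des v k lam B := ⟨hB.two_le, hB.lt, hB.size, hB.pair⟩
    have h1 := Pool.Agent.N345.Sym.com_le hd hlam H hH hcard
    have h2 : (commonFixedPoints H).ncard = (Pool.Agent.N345.Sym.com H).card := by
      rw [← Set.ncard_coe_finset]
      congr 1
      ext x
      simp [commonFixedPoints, Pool.Agent.N345.Sym.mem_com]
    rw [h2]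
    exact h1
  refine ⟨main, ?_⟩
  intro lam c hlam hc
  -- a bound for `k`
  set C : ℝ := 2 * lam ^ 2 * Real.sqrt (2 * lam + 1) with hC
  have hC0 : 0 ≤ C := by positivity
  obtain ⟨M, hM⟩ := exists_nat_gt ((C / (lam * c - 1)) ^ 2)
  refine Set.Finite.subset ((Set.finite_Iic (M * M + M)).prod (Set.finite_Iic M)) ?_
  rintro ⟨v, k⟩ ⟨B, H, hB, hH, hcard, hf⟩
  simp only at B H hB hH hcard hf
  have hd : Pool.Agent.N345.Sym.Des v k lam B := ⟨hB.two_le, hB.lt, hB.size, hB.pair⟩
  have h1 := main v k lam B H hlam hB hH hcard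
  have h2 : (lam : ℝ) * (c * k) ≤ k + C * Real.sqrt k :=
    le_trans (mul_le_mul_of_nonneg_left hf (Nat.cast_nonneg _)) h1
  have hk0 : (0 : ℝ) < k := by
    have := hB.two_le
    exact_mod_cast (by omega : 0 < k)
  have hs : 0 < Real.sqrt k := Real.sqrt_pos.2 hk0
  have hs2 : Real.sqrt k * Real.sqrt k = k := Real.mul_self_sqrt hk0.le
  have hlc : 0 < lam * c - 1 := by linarith
  have h3 : Real.sqrt k ≤ C / (lam * c - 1) := by
    rw [le_div_iff₀ hlc]
    have : Real.sqrt k * (Real.sqrt k * (lam * c - 1)) ≤ Real.sqrt k * C := by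
      calc Real.sqrt k * (Real.sqrt k * (lam * c - 1)) = lam * (c * k) - k := by
            rw [← mul_assoc, hs2]; ring
        _ ≤ Real.sqrt k * C := by linarith
    exact le_of_mul_le_mul_left this hs
  have h4 : (k : ℝ) ≤ (C / (lam * c - 1)) ^ 2 := by
    calc (k : ℝ) = Real.sqrt k ^ 2 := by rw [sq, hs2]
      _ ≤ _ := by gcongr
  have h5 : k ≤ M := by
    have : (k : ℝ) < M := lt_of_le_of_lt h4 hM
    exact_mod_cast this.le
  have h6 : v ≤ k * k := by
    have := hd.lam_v hlam
    calc v ≤ lam * v := Nat.le_mul_of_pos_left v hlam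
      _ ≤ k * k := this
  refine ⟨?_, h5⟩
  simp only [Set.mem_Iic]
  nlinarith

end Pool.Agent.Results.MP_c38931_co.ManyFixedPoints
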