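import Pool.Agent.N598.BT.Design

/-!
# Symmetric designs given by tree tensor networks

The points and the blocks of a symmetric `2-(v, k, lam)` design have names, strings of `m` symbols of
an alphabet `α` with `q` elements (for instance bit strings), `q ^ m ≤ D v`, in any labelling. Suppose
that the set of the incident pairs (name of the point, name of the block) is the union of the
supports of `L ≤ v ^ β` functions of the `2 m` symbols of two strings, `β < 1 / 2`, each of which is
computed by a read-once tree tensor network of bond dimension at most `v ^ δ` over some field: the
leaves of a binary tree read one symbol each, and vectors of dimension at most `v ^ δ` are combined at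
the inner nodes by bilinear maps. The trees, the arrangement of the `2 m` symbols at the leaves and
the fields are arbitrary, and there may be cancellations. If moreover `q ≤ v ^ δ` (for a fixed
alphabet this holds for large `v`), then `v` is bounded in terms of `lam`, `D` and `β`, where `δ > 0`
depends on `lam` and `β` only: Hall's conjecture holds for these designs.

`Piece`: `Pool/Agent/N598/BT/Defs.lean`; `UnionOf`: `Pool/Agent/N598/BT/Two.lean`; `Inc`:
`Pool/Agent/N598/BT/Design.lean`.

The theorem also holds for `lam = 1`: projective planes of large order do not have such a description
by small networks over small alphabets. (With the coordinates in `F_q` as symbols one network of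
bond dimension `q` is enough for the affine planes.)

Proof. Such a union with more than `C L q ^ 4 n ^ (1 + η)` members, `n = q ^ m`, contains a product
set of `t` points and `t` blocks for every fixed `t` and `η > 0`, if the bond dimension is at most
`n ^ δ`. There are `v k ≥ v √(v - 1)` incident pairs, but no `lam + 1` common points of two blocks.
The product set is found as follows (`Grid.lean`, `Count.lean`, `Main.lean`). The nodes of the tree
give a partition of the `2 m` symbols into `O(1)` small parts, for each of which the flattening of the
function has rank at most `w ^ 3`. They are removed one by one. In each of them one of the two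
strings has fewer symbols. These are fixed, and `t - 1` times a basis of the remaining sections is
chosen. The support of every other section is covered by products of `t` sections whose supports
contain no `t` strings with the same other string, and so on.
-/

set_option autoImplicit false

namespace Pool.Agent.Results.MP_c38931_co.TensorNetworks

open Pool.Agent.N598.BT

theorem result (lam : ℕ) (β : ℝ) (hlam : 1 ≤ lam) (hβ : β < 1 / 2) :
    ∃ δ : ℝ, 0 < δ ∧ ∀ D : ℕ, ∃ N : ℕ, ∀ (v k : ℕ) (B : Fin v → Finset (Fin v)),
      (∀ i, (B i).card = k) →
      (∀ x y : Fin v, x ≠ y →
        (Finset.univ.filter (fun i => x ∈ B i ∧ y ∈ B i)).card = lam) →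
      ∀ (α : Type) [Fintype α] [Nonempty α] (m L w : ℕ) (p b : Fin v → Fin m → α),
      Function.Injective p → Function.Injective b → Fintype.card α ^ m ≤ D * v →
      (Fintype.card α : ℝ) ≤ (v : ℝ) ^ δ → (L : ℝ) ≤ (v : ℝ) ^ β → (w : ℝ) ≤ (v : ℝ) ^ δ →
      UnionOf L w (Inc B p b) → v ≤ N :=
  design_finite lam β hlam hβ

end Pool.Agent.Results.MP_c38931_co.TensorNetworks
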